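import Mathlib
import Pool.Agent.Y491.FP.Stm

/-! Step CMP of project FP: comparison of the balance constants of posets with the same windows. -/

set_option autoImplicit false

open Finset
open scoped Classical

namespace Pool.Agent.Y455.FP.Cmp

open Pool.Agent.TH161.LW Pool.Agent.H13R3.WB Pool.Agent.Y491.BF Pool.Agent.Y491.FP

/-- `pp` depends only on the relation on small labels -/
theorem pp_congr {a : ℕ} (q1 q2 : NP a)
    (h : ∀ i j, i < a → j < a → (q1.rel i j ↔ q2.rel i j)) (x y : ℕ) : pp q1 x y = pp q2 x y := by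
  have key : ∀ (o1 o2 : PartialOrder (Fin a)), o1 = o2 → ∀ u v : Fin a,
      @prob (Fin a) _ o1 u v = @prob (Fin a) _ o2 u v := by
    rintro o1 _ rfl u v
    rfl
  have ho : (inferInstanceAs (PartialOrder q1.El) : PartialOrder (Fin a)) =
      (inferInstanceAs (PartialOrder q2.El) : PartialOrder (Fin a)) := by
    apply PartialOrder.ext
    intro i j
    exact h i.1 j.1 i.2 j.2
  unfold pp
  by_cases hxy : x < a ∧ y < a
  · rw [dif_pos hxy, dif_pos hxy]
    exact key _ _ ho ⟨x, hxy.1⟩ ⟨y, hxy.2⟩
  · rw [dif_neg hxy, dif_neg hxy]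

/-- the same for posets with (a priori) different numbers of elements -/
theorem pp_congr' {a b : ℕ} (hab : a = b) (q1 : NP a) (q2 : NP b)
    (h : ∀ i j, i < a → j < a → (q1.rel i j ↔ q2.rel i j)) (x y : ℕ) : pp q1 x y = pp q2 x y := by
  subst hab
  exact pp_congr q1 q2 h x y

/-- the balance constant bounds the minimum of the two probabilities -/
lemma min_le_balance {n : ℕ} (p : NP n) (x y : ℕ) (hx : x < n) (hy : y < n) :
    min (pp p x y) (pp p y x) ≤ balance p.El := by
  unfold pp balance
  rw [dif_pos ⟨hx, hy⟩, dif_pos ⟨hy, hx⟩]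
  exact le_ciSup (f := fun r : p.El × p.El => min (prob p.El r.1 r.2) (prob p.El r.2 r.1))
    (Set.finite_range _).bddAbove (p.mk' x hx, p.mk' y hy)

lemma th_nonneg (K : ℕ) : 0 ≤ th K := by
  unfold th
  have h1 : (1 : ℝ) ≤ (K.factorial : ℝ) := by exact_mod_cast K.factorial_pos
  have h2 : 1 / (K.factorial : ℝ) ≤ 1 := by
    rw [div_le_one (by linarith)]
    exact h1
  linarith

/-- the comparison for one incomparable pair -/
lemma pair (h1 : S_LOC) (h2 : S_BAND) (m n : ℕ) (q : NP m) (p : NP n) (K l k : ℕ)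
    (hq : Thin K q.El) (hp : Thin K p.El) (hl : 2 * (k + 1) * K + 2 * K + 1 ≤ l)
    (hlike : Like l q p) (x y : ℕ) (hxy : x < y) (hy : y < m) (hr : ¬ q.rel x y) :
    min (pp q x y) (pp q y x) ≤ balance p.El + 4 * th K ^ k := by
  have hb := h2 m q K x y hq hxy hy hr
  set W : ℕ := (k + 1) * K with hW
  have hl' : 2 * W + 2 * K + 1 ≤ l := by
    have : 2 * W = 2 * (k + 1) * K := by rw [hW]; ring
    rw [this]; exact hl
  obtain ⟨s', hs1, hs2, hs3, hs4⟩ := hlike (x - W) (min m (y + W + 1)) (by omega) (min_le_left _ _)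
    (by omega)
  set s : ℕ := x - W with hs
  set t : ℕ := min m (y + W + 1) with ht
  have htm : t ≤ m := min_le_left _ _
  have hst : s ≤ x := Nat.sub_le _ _
  have hyt : y < t := by omega
  have hA : s = 0 ∨ (s + (k + 1) * K ≤ x ∧ s + (k + 1) * K ≤ y) := by
    rw [← hW]
    by_cases hc : x ≤ W
    · left; omega
    · right; omega
  have hA' : s = 0 ∨ (s + (k + 1) * K ≤ y ∧ s + (k + 1) * K ≤ x) := by
    rcases hA with h | h
    · exact Or.inl h
    · exact Or.inr ⟨h.2, h.1⟩
  have hB : t = m ∨ (x + (k + 1) * K < t ∧ y + (k + 1) * K < t) := by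
    rw [← hW]
    by_cases hc : m ≤ y + W + 1
    · left; omega
    · right; omega
  have hB' : t = m ∨ (y + (k + 1) * K < t ∧ x + (k + 1) * K < t) := by
    rcases hB with h | h
    · exact Or.inl h
    · exact Or.inr ⟨h.2, h.1⟩
  have q1 := h1 m q K k s t x y htm hq hst (by omega) (by omega) hyt hA hB
  have q2 := h1 m q K k s t y x htm hq (by omega) hst hyt (by omega) hA' hB'
  have hC : s' = 0 ∨ (s' + (k + 1) * K ≤ s' + (x - s) ∧ s' + (k + 1) * K ≤ s' + (y - s)) := by
    rcases hA with h | h
    · exact Or.inl (hs2 h)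
    · right
      constructor <;> omega
  have hC' : s' = 0 ∨ (s' + (k + 1) * K ≤ s' + (y - s) ∧ s' + (k + 1) * K ≤ s' + (x - s)) := by
    rcases hC with h | h
    · exact Or.inl h
    · exact Or.inr ⟨h.2, h.1⟩
  have hD : s' + (t - s) = n ∨ (s' + (x - s) + (k + 1) * K < s' + (t - s) ∧
      s' + (y - s) + (k + 1) * K < s' + (t - s)) := by
    rcases hB with h | h
    · exact Or.inl (hs3 h)
    · right
      constructor <;> omega
  have hD' : s' + (t - s) = n ∨ (s' + (y - s) + (k + 1) * K < s' + (t - s) ∧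
      s' + (x - s) + (k + 1) * K < s' + (t - s)) := by
    rcases hD with h | h
    · exact Or.inl h
    · exact Or.inr ⟨h.2, h.1⟩
  have p1 := h1 n p K k s' (s' + (t - s)) (s' + (x - s)) (s' + (y - s)) hs1 hp (by omega) (by omega)
    (by omega) (by omega) hC hD
  have p2 := h1 n p K k s' (s' + (t - s)) (s' + (y - s)) (s' + (x - s)) hs1 hp (by omega) (by omega)
    (by omega) (by omega) hC' hD'
  have ex : s' + (x - s) - s' = x - s := by omega
  have ey : s' + (y - s) - s' = y - s := by omega
  rw [ex, ey] at p1 p2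
  have hcong : ∀ u v, pp (q.win s t htm) u v = pp (p.win s' (s' + (t - s)) hs1) u v := by
    intro u v
    refine pp_congr' (by omega) _ _ ?_ u v
    intro i j hi hj
    exact hs4 i j hi hj
  rw [hcong] at q1 q2
  have hfin := min_le_balance p (s' + (x - s)) (s' + (y - s)) (by omega) (by omega)
  rw [abs_le] at q1 q2 p1 p2
  rcases min_choice (pp p (s' + (x - s)) (s' + (y - s))) (pp p (s' + (y - s)) (s' + (x - s)))
    with hm | hm
  · rw [hm] at hfin
    refine le_trans (min_le_left _ _) ?_
    linarith [q1.2, p1.1]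
  · rw [hm] at hfin
    refine le_trans (min_le_right _ _) ?_
    linarith [q2.2, p2.1]

theorem t_CMP (h1 : S_LOC) (h2 : S_BAND) (h3 : S_HALF) : S_CMP := by
  intro m n q p K l k hq hp hl hlike
  have h0 : 0 ≤ balance p.El + 4 * th K ^ k := by
    have := (h3 p.El).1
    have h4 := pow_nonneg (th_nonneg K) k
    linarith
  rcases isEmpty_or_nonempty q.El with he | he
  · have : IsEmpty (q.El × q.El) := inferInstance
    unfold balance
    rw [Real.iSup_of_isEmpty]
    exact h0
  · have : Nonempty (q.El × q.El) := inferInstance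
    refine ciSup_le ?_
    rintro ⟨x, y⟩
    have hx : Fin.val (n := m) x < m := Fin.isLt (n := m) x
    have hy : Fin.val (n := m) y < m := Fin.isLt (n := m) y
    have ex : prob q.El x y = pp q (Fin.val (n := m) x) (Fin.val (n := m) y) := by
      unfold pp
      rw [dif_pos ⟨hx, hy⟩]
      rfl
    have ey : prob q.El y x = pp q (Fin.val (n := m) y) (Fin.val (n := m) x) := by
      unfold pp
      rw [dif_pos ⟨hy, hx⟩]
      rfl
    by_cases c1 : x ≤ y
    · have : prob q.El y x = 0 := prob_eq_zero_of_le c1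
      refine le_trans (min_le_right _ _) ?_
      change prob q.El y x ≤ _
      rw [this]; exact h0
    by_cases c2 : y ≤ x
    · have : prob q.El x y = 0 := prob_eq_zero_of_le c2
      refine le_trans (min_le_left _ _) ?_
      change prob q.El x y ≤ _
      rw [this]; exact h0
    change min (prob q.El x y) (prob q.El y x) ≤ _
    rw [ex, ey]
    rcases lt_trichotomy (Fin.val (n := m) x) (Fin.val (n := m) y) with h | h | h
    · exact pair h1 h2 m n q p K l k hq hp hl hlike _ _ h hy c1
    · exfalso
      apply c1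
      have hxy : x = y := Fin.ext (n := m) h
      rw [hxy]
    · rw [min_comm]
      exact pair h1 h2 m n q p K l k hq hp hl hlike _ _ h hx c2

end Pool.Agent.Y455.FP.Cmp
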