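import Mathlib
import Pool.Agent.Y491.FP.Stm

/-! Step GLU of project FP: cut and paste at two places with equal windows. -/

set_option autoImplicit false

open Finset
open scoped Classical

namespace Pool.Agent.Y455.FP.Glu

open Pool.Agent.TH161.LW Pool.Agent.H13R3.WB Pool.Agent.Y491.BF Pool.Agent.Y491.FP

/-- the relation of the shortened poset -/
def qr {n : ℕ} (p : NP n) (a L d : ℕ) (i j : ℕ) : Prop :=
  i ≤ j ∧ (if j < a + L then p.rel i j else if a ≤ i then p.rel (i + d) (j + d) else True)

lemma qr_left {n : ℕ} (p : NP n) {a L d : ℕ} (hn : a + L ≤ n) {i j : ℕ} (hi : i < a + L)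
    (hj : j < a + L) : qr p a L d i j ↔ p.rel i j := by
  unfold qr
  rw [if_pos hj]
  constructor
  · exact fun h => h.2
  · intro h
    exact ⟨p.le i j (by omega) (by omega) h, h⟩

lemma qr_right {n : ℕ} (p : NP n) {a L d : ℕ} (hdn : d ≤ n)
    (hag : ∀ i j, i < L → j < L → (p.rel (a + i) (a + j) ↔ p.rel (a + d + i) (a + d + j)))
    {i j : ℕ} (hi : a ≤ i) (hi2 : i < n - d) (hj : a ≤ j) (hj2 : j < n - d) :
    qr p a L d i j ↔ p.rel (i + d) (j + d) := by
  unfold qr
  constructor
  · rintro ⟨h1, h2⟩
    by_cases hjL : j < a + L
    · rw [if_pos hjL] at h2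
      have := hag (i - a) (j - a) (by omega) (by omega)
      have e1 : a + (i - a) = i := by omega
      have e2 : a + (j - a) = j := by omega
      have e3 : a + d + (i - a) = i + d := by omega
      have e4 : a + d + (j - a) = j + d := by omega
      rw [e1, e2, e3, e4] at this
      exact this.1 h2
    · rw [if_neg hjL, if_pos hi] at h2
      exact h2
  · intro h
    have hle := p.le _ _ (by omega) (by omega) h
    refine ⟨by omega, ?_⟩
    by_cases hjL : j < a + L
    · rw [if_pos hjL]
      have := hag (i - a) (j - a) (by omega) (by omega)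
      have e1 : a + (i - a) = i := by omega
      have e2 : a + (j - a) = j := by omega
      have e3 : a + d + (i - a) = i + d := by omega
      have e4 : a + d + (j - a) = j + d := by omega
      rw [e1, e2, e3, e4] at this
      exact this.2 h
    · rw [if_neg hjL, if_pos hi]
      exact h

/-- the shortened poset -/
def qP {n : ℕ} (p : NP n) (a L d : ℕ) (hn : a + L + d ≤ n)
    (hag : ∀ i j, i < L → j < L → (p.rel (a + i) (a + j) ↔ p.rel (a + d + i) (a + d + j))) :
    NP (n - d) where
  rel := qr p a L d
  refl i hi := by
    by_cases h : i < a + L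
    · exact (qr_left p (by omega) h h).2 (p.refl i (by omega))
    · exact (qr_right p (by omega) hag (by omega) hi (by omega) hi).2 (p.refl _ (by omega))
  le i j _ _ h := h.1
  trans i j k hi hj hk h1 h2 := by
    have hij := h1.1
    have hjk := h2.1
    by_cases hk2 : k < a + L
    · rw [qr_left p (by omega) (by omega) (by omega)] at h1 h2 ⊢
      exact p.trans i j k (by omega) (by omega) (by omega) h1 h2
    · by_cases ha : a ≤ i
      · rw [qr_right p (by omega) hag (by omega) (by omega) (by omega) (by omega)] at h1 h2 ⊢
        exact p.trans _ _ _ (by omega) (by omega) (by omega) h1 h2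
      · refine ⟨by omega, ?_⟩
        rw [if_neg hk2, if_neg ha]
        trivial

theorem t_GLU (h : S_BAND) : S_GLU := by
  intro n p K l L a b hthin hl hL hab hn hag
  obtain ⟨d, rfl⟩ : ∃ d, b = a + d := ⟨b - a, by omega⟩
  have hd : a + d - a = d := by omega
  rw [hd]
  have hn2 : a + L + d ≤ n := by omega
  have hleft : ∀ i j, i < a + L → j < a + L →
      ((qP p a L d hn2 hag).rel i j ↔ p.rel i j) :=
    fun i j hi hj => qr_left p (by omega) hi hj
  have hright : ∀ i j, a ≤ i → i < n - d → a ≤ j → j < n - d →
      ((qP p a L d hn2 hag).rel i j ↔ p.rel (i + d) (j + d)) :=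
    fun i j h1 h2 h3 h4 => qr_right p (by omega) hag h1 h2 h3 h4
  have hmid : ∀ i j, i < a → a + L ≤ j → (qP p a L d hn2 hag).rel i j := by
    intro i j h1 h2
    refine ⟨by omega, ?_⟩
    rw [if_neg (by omega), if_neg (by omega)]
    trivial
  have hband : ∀ i j, i < n → j < n → ¬ p.rel i j → ¬ p.rel j i → i < j + 2 * K ∧ j < i + 2 * K := by
    intro i j hi hj h1 h2
    rcases lt_trichotomy i j with hij | hij | hij
    · have := h n p K i j hthin hij hj h1
      omega
    · subst hij
      exact absurd (p.refl i hi) h1
    · have := h n p K j i hthin hij hi h2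
      omega
  refine ⟨qP p a L d hn2 hag, ?_, ?_, hleft, hright⟩
  · intro x
    set i : ℕ := Fin.val (n := n - d) x with hi
    have hi2 : i < n - d := Fin.isLt (n := n - d) x
    by_cases hc : i < a + 2 * K
    · have key : ∀ w : (qP p a L d hn2 hag).El, (¬ w ≤ x ∧ ¬ x ≤ w) →
          Fin.val (n := n - d) w < a + L := by
        intro w hw
        by_contra hcon
        have hw1 : Fin.val (n := n - d) w < n - d := Fin.isLt (n := n - d) w
        have hw2 : ¬ (qP p a L d hn2 hag).rel i (Fin.val (n := n - d) w) := hw.2
        have hw3 : ¬ (qP p a L d hn2 hag).rel (Fin.val (n := n - d) w) i := hw.1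
        by_cases hia : a ≤ i
        · rw [hright _ _ (by omega) (by omega) (by omega) (by omega)] at hw2 hw3
          have := hband _ _ (by omega) (by omega) hw2 hw3
          omega
        · exact hw2 (hmid _ _ (by omega) (by omega))
      refine le_trans ?_ (hthin (p.mk' i (by omega)))
      refine Finset.card_le_card_of_injOn (fun w => p.mk' (min (Fin.val (n := n - d) w) (n - 1)) (by omega))
        ?_ ?_
      · intro w hw
        rw [Finset.mem_coe, Finset.mem_filter] at hw
        rw [Finset.mem_coe, Finset.mem_filter]
        refine ⟨Finset.mem_univ _, ?_⟩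
        have h1 := key w hw.2
        have h2 : ¬ (qP p a L d hn2 hag).rel i (Fin.val (n := n - d) w) := hw.2.2
        have h3 : ¬ (qP p a L d hn2 hag).rel (Fin.val (n := n - d) w) i := hw.2.1
        rw [hleft _ _ (by omega) (by omega)] at h2 h3
        have e : min (Fin.val (n := n - d) w) (n - 1) = Fin.val (n := n - d) w := by omega
        refine ⟨?_, ?_⟩
        · change ¬ p.rel (min (Fin.val (n := n - d) w) (n - 1)) i
          rw [e]; exact h3
        · change ¬ p.rel i (min (Fin.val (n := n - d) w) (n - 1))
          rw [e]; exact h2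
      · intro w hw w' hw' he
        have hw1 : Fin.val (n := n - d) w < n - d := Fin.isLt (n := n - d) w
        have hw2 : Fin.val (n := n - d) w' < n - d := Fin.isLt (n := n - d) w'
        have he2 : min (Fin.val (n := n - d) w) (n - 1) = min (Fin.val (n := n - d) w') (n - 1) :=
          congrArg (Fin.val (n := n)) he
        exact Fin.ext (n := n - d) (by omega)
    · have key : ∀ w : (qP p a L d hn2 hag).El, (¬ w ≤ x ∧ ¬ x ≤ w) →
          a ≤ Fin.val (n := n - d) w := by
        intro w hw
        by_contra hcon
        have hw2 : ¬ (qP p a L d hn2 hag).rel i (Fin.val (n := n - d) w) := hw.2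
        have hw3 : ¬ (qP p a L d hn2 hag).rel (Fin.val (n := n - d) w) i := hw.1
        by_cases hia : i < a + L
        · rw [hleft _ _ (by omega) (by omega)] at hw2 hw3
          have := hband _ _ (by omega) (by omega) hw2 hw3
          omega
        · exact hw3 (hmid _ _ (by omega) (by omega))
      refine le_trans ?_ (hthin (p.mk' (i + d) (by omega)))
      refine Finset.card_le_card_of_injOn (fun w => p.mk' (Fin.val (n := n - d) w + d) ?_)
        ?_ ?_
      · have hw1 : Fin.val (n := n - d) w < n - d := Fin.isLt (n := n - d) w
        omega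
      · intro w hw
        rw [Finset.mem_coe, Finset.mem_filter] at hw
        rw [Finset.mem_coe, Finset.mem_filter]
        refine ⟨Finset.mem_univ _, ?_⟩
        have hw1 : Fin.val (n := n - d) w < n - d := Fin.isLt (n := n - d) w
        have h1 := key w hw.2
        have h2 : ¬ (qP p a L d hn2 hag).rel i (Fin.val (n := n - d) w) := hw.2.2
        have h3 : ¬ (qP p a L d hn2 hag).rel (Fin.val (n := n - d) w) i := hw.2.1
        rw [hright _ _ (by omega) (by omega) (by omega) (by omega)] at h2 h3
        exact ⟨h3, h2⟩
      · intro w hw w' hw' he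
        have he2 : Fin.val (n := n - d) w + d = Fin.val (n := n - d) w' + d :=
          congrArg (Fin.val (n := n)) he
        exact Fin.ext (n := n - d) (by omega)
  · intro s t hst ht htl
    by_cases htc : t ≤ a + L
    · refine ⟨s, by omega, fun h => h, fun h => by omega, ?_⟩
      intro i j hi hj
      exact hleft _ _ (by omega) (by omega)
    · refine ⟨s + d, by omega, fun h => by omega, fun h => by omega, ?_⟩
      intro i j hi hj
      rw [hright _ _ (by omega) (by omega) (by omega) (by omega)]
      have e1 : s + i + d = s + d + i := by omega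
      have e2 : s + j + d = s + d + j := by omega
      rw [e1, e2]

end Pool.Agent.Y455.FP.Glu
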